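import Mathlib

namespace Pool.Agent.Results.MP_cfc732_al.Houghton

open Equiv

/-- Evaluation of a word over `X`. -/
def ev {G : Type} [Group G] {X : Set G} (w : List X) : G := (w.map Subtype.val).prod

/-- `X` is finite and generates `G` as a monoid. -/
def IsGenSet {G : Type} [Group G] (X : Set G) : Prop := X.Finite ∧ Submonoid.closure X = ⊤

def EpiRegular (G : Type) [Group G] : Prop :=
  ∃ X : Set G, IsGenSet X ∧ ∃ L : Language X, L.IsRegular ∧ [] ∉ L ∧
    ev '' (L : Set (List X)) = {1}ᶜ

def HasRCS (G : Type) [Group G] : Prop :=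
  ∃ X : Set G, IsGenSet X ∧ ∃ L : Language X, L.IsRegular ∧
    Set.BijOn ev (L : Set (List X)) Set.univ

lemma ev_append {G : Type} [Group G] {X : Set G} (u v : List X) : ev (u ++ v) = ev u * ev v := by
  simp [ev]

lemma ev_single {G : Type} [Group G] {X : Set G} (x : X) : ev [x] = x.1 := by simp [ev]

lemma ev_nil {G : Type} [Group G] {X : Set G} : ev ([] : List X) = 1 := by simp [ev]

def Sh (g : Perm ℤ) (k : ℤ) : Prop := {i | g i ≠ i + k}.Finite

lemma Sh.one : Sh 1 0 := by simp [Sh]

lemma Sh.mul {g h : Perm ℤ} {k l : ℤ} (hg : Sh g k) (hh : Sh h l) : Sh (g * h) (k + l) := by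
  refine Set.Finite.subset (Set.Finite.union hh (Set.Finite.image (· - l) hg)) ?_
  intro i hi
  by_cases h1 : h i = i + l
  · right
    refine ⟨i + l, ?_, by simp⟩
    simp only [Set.mem_ofPred_eq, Perm.mul_apply, h1] at hi ⊢
    intro h2; apply hi; rw [h2]; ring
  · left; exact h1

lemma Sh.inv {g : Perm ℤ} {k : ℤ} (hg : Sh g k) : Sh g⁻¹ (-k) := by
  refine Set.Finite.subset (Set.Finite.image g hg) ?_
  intro i hi
  refine ⟨g⁻¹ i, ?_, by simp⟩
  simp only [Set.mem_ofPred_eq, Perm.coe_inv, apply_symm_apply] at hi ⊢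
  intro h2; apply hi; omega

lemma Sh.unique {g : Perm ℤ} {k l : ℤ} (hk : Sh g k) (hl : Sh g l) : k = l := by
  obtain ⟨i, hi⟩ := (Set.Finite.union hk hl).exists_notMem
  simp only [Set.mem_union, Set.mem_ofPred_eq, not_or, not_not] at hi
  omega

lemma Sh.zpow {g : Perm ℤ} (hg : Sh g 1) (m : ℤ) : Sh (g ^ m) m := by
  induction m using Int.induction_on with
  | zero => simpa using Sh.one
  | succ n ih => rw [zpow_add_one]; exact ih.mul hg
  | pred n ih => rw [zpow_sub_one, sub_eq_add_neg]; exact ih.mul hg.inv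

lemma Sh.swap (i j : ℤ) : Sh (swap i j) 0 := by
  refine Set.Finite.subset (Set.toFinite {i, j}) ?_
  intro x hx
  by_contra h
  simp only [Set.mem_insert_iff, Set.mem_singleton_iff, not_or] at h
  exact hx (by simp [swap_apply_of_ne_of_ne h.1 h.2])

def H : Subgroup (Perm ℤ) where
  carrier := {g | ∃ k, Sh g k}
  one_mem' := ⟨0, Sh.one⟩
  mul_mem' := fun ⟨k, hk⟩ ⟨l, hl⟩ => ⟨k + l, hk.mul hl⟩
  inv_mem' := fun ⟨k, hk⟩ => ⟨-k, hk.inv⟩

noncomputable def sh (g : H) : ℤ := g.2.choose

lemma sh_spec (g : H) : Sh g.1 (sh g) := g.2.choose_spec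

lemma sh_mul (g h : H) : sh (g * h) = sh g + sh h :=
  (sh_spec _).unique ((sh_spec g).mul (sh_spec h))

lemma fin_order (g : Perm ℤ) (hg : Sh g 0) : ∃ n, 0 < n ∧ g ^ n = 1 := by
  rw [← isOfFinOrder_iff_pow_eq_one]
  by_contra hn
  have hinj := injective_pow_iff_not_isOfFinOrder.mpr hn
  let F := {i | g i ≠ i + 0}
  have : Finite F := hg
  have hF : ∀ (n : ℕ) (i : F), (g ^ n) i ∈ F := by
    intro n i h
    apply i.2
    rw [add_zero] at h ⊢
    rw [← Perm.mul_apply, ← pow_succ', pow_succ, Perm.mul_apply] at h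
    exact (g ^ n).injective h
  obtain ⟨n, m, hnm, h⟩ := Finite.exists_ne_map_eq_of_infinite
    (fun n : ℕ => fun i : F => (⟨(g ^ n) i, hF n i⟩ : F))
  apply hnm
  apply hinj
  ext i
  by_cases hi : i ∈ F
  · exact congrArg Subtype.val (congrFun h ⟨i, hi⟩)
  · have : g i = i := by simpa [F] using hi
    simp only
    rw [Perm.pow_apply_eq_self_of_apply_eq_self this, Perm.pow_apply_eq_self_of_apply_eq_self this]

def D (g : H) : Set ℤ := {i | ¬ (g.1 i < 0 ↔ i + sh g < 0)}

lemma D_fin (g : H) : (D g).Finite := by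
  refine Set.Finite.subset (sh_spec g) ?_
  intro i hi h
  exact hi (by rw [h])

lemma D_mul (g x : H) : D (g * x) ⊆ x.1 ⁻¹' (D g) ∪
    {i | ¬ (x.1 i + sh g < 0 ↔ i + sh x + sh g < 0)} := by
  intro i hi
  by_contra h
  simp only [D, Set.mem_union, Set.mem_preimage, Set.mem_ofPred_eq, not_or, not_not] at h hi
  apply hi
  rw [sh_mul, Subgroup.coe_mul, Perm.mul_apply, h.1, h.2]
  constructor <;> intro h <;> omega

lemma no_rcs : ¬ HasRCS H := by
  classical
  rintro ⟨X, ⟨hX, -⟩, L, ⟨σ, _, M, rfl⟩, hL⟩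
  have : Finite X := hX
  obtain ⟨C, hC⟩ : ∃ C : ℕ, ∀ x : X, {i | x.1.1 i ≠ i + sh x.1}.ncard ≤ C := by
    obtain ⟨C, hC⟩ := (Set.finite_range fun x : X => {i | x.1.1 i ≠ i + sh x.1}.ncard).bddAbove
    exact ⟨C, fun x => hC ⟨x, rfl⟩⟩
  obtain ⟨R, hR⟩ : ∃ R : ℕ, ∀ x : X, ∀ i, x.1.1 i ≠ i + sh x.1 →
      |x.1.1 i| < R ∧ |i + sh x.1| < R := by
    have hf : (⋃ x : X, (fun i => max |x.1.1 i| |i + sh x.1|) ''
        {i | x.1.1 i ≠ i + sh x.1}).Finite :=
      Set.finite_iUnion fun x => Set.Finite.image _ (sh_spec x.1)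
    obtain ⟨B, hB⟩ := hf.bddAbove
    refine ⟨B.natAbs + 1, fun x i hi => ?_⟩
    have := hB (Set.mem_iUnion.mpr ⟨x, i, hi, rfl⟩)
    simp only [max_le_iff] at this
    constructor <;> omega
  let cnt : List X → ℕ := fun w =>
    ((Finset.range w.length).filter (fun j => |sh (ev (w.take j))| ≤ R)).card
  have hcnt : ∀ w : List X, (D (ev w)).ncard ≤ C * cnt w := by
    intro w
    induction w using List.reverseRecOn with
    | nil =>
      have h0 : sh (1 : H) = 0 := (sh_spec _).unique Sh.one
      have : D (ev ([] : List X)) = ∅ := by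
        ext i; simp [D, ev_nil, h0]
      rw [this]; simp
    | append_singleton w x ih =>
      have e : cnt (w ++ [x]) = cnt w + if |sh (ev w)| ≤ R then 1 else 0 := by
        simp only [cnt, List.length_append, List.length_singleton, Finset.range_add_one,
          Finset.filter_insert, List.take_left']
        have e2 : (Finset.range w.length).filter (fun j => |sh (ev ((w ++ [x]).take j))| ≤ R) =
            (Finset.range w.length).filter (fun j => |sh (ev (w.take j))| ≤ R) := by
          apply Finset.filter_congr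
          intro j hj
          rw [Finset.mem_range] at hj
          rw [List.take_append_of_le_length hj.le]
        rw [e2]
        split_ifs
        · rw [Finset.card_insert_of_notMem (by simp)]
        · rfl
      rw [e, ev_append, ev_single]
      have hsub : {i | ¬ (x.1.1 i + sh (ev w) < 0 ↔ i + sh x.1 + sh (ev w) < 0)} ⊆
          {i | x.1.1 i ≠ i + sh x.1} := fun i hi h => hi (by rw [h])
      have h1 : (x.1.1 ⁻¹' (D (ev w))).ncard = (D (ev w)).ncard :=
        Set.ncard_preimage_of_injective_subset_range x.1.1.injective (by simp)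
      have h2 : {i | ¬ (x.1.1 i + sh (ev w) < 0 ↔ i + sh x.1 + sh (ev w) < 0)}.ncard ≤
          C * if |sh (ev w)| ≤ R then 1 else 0 := by
        split_ifs with hh
        · rw [mul_one]
          exact (Set.ncard_le_ncard hsub (sh_spec x.1)).trans (hC x)
        · have : {i | ¬ (x.1.1 i + sh (ev w) < 0 ↔ i + sh x.1 + sh (ev w) < 0)} = ∅ := by
            ext i
            simp only [Set.mem_ofPred_eq, Set.mem_empty_iff_false, iff_false]
            intro hi
            obtain ⟨a1, a2⟩ := hR x i (hsub hi)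
            apply hi
            rw [abs_lt] at a1 a2
            rw [not_le, lt_abs] at hh
            constructor <;> intro h <;> omega
          rw [this]; simp
      refine (Set.ncard_le_ncard (D_mul _ _) (((D_fin _).preimage x.1.1.injective.injOn).union
        ((sh_spec x.1).subset hsub))).trans ((Set.ncard_union_le _ _).trans ?_)
      rw [h1, mul_add]
      exact add_le_add ih h2
  have hkey : ∀ w ∈ M.accepts, ∀ j j', j < j' → j' < w.length →
      M.eval (w.take j) = M.eval (w.take j') → sh (ev (w.take j)) = sh (ev (w.take j')) →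
      False := by
    intro w hw j j' hjj hj' hs hh
    obtain ⟨u, hu⟩ : w.take j <+: w.take j' := List.take_prefix_take_left hjj.le
    have hul : 0 < u.length := by
      have := congrArg List.length hu
      simp only [List.length_append, List.length_take] at this
      omega
    have hu0 : sh (ev u) = 0 := by
      rw [← hu, ev_append, sh_mul] at hh
      omega
    obtain ⟨n, hn, hun⟩ := fin_order (ev u).1 (hu0 ▸ sh_spec _)
    have hun' : ev u ^ n = 1 := Subtype.ext hun
    have hloop : M.evalFrom (M.eval (w.take j')) u = M.eval (w.take j') := by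
      conv_lhs => rw [← hs]
      rw [← hu]
      exact (M.evalFrom_of_append _ _ _).symm
    have hrep : ∀ m : ℕ, M.evalFrom (M.eval (w.take j')) (List.replicate m u).flatten =
        M.eval (w.take j') ∧ ev (List.replicate m u).flatten = ev u ^ m := by
      intro m
      induction m with
      | zero => exact ⟨rfl, by simp [ev_nil]⟩
      | succ m ih =>
        rw [List.replicate_succ, List.flatten_cons, M.evalFrom_of_append, hloop, ev_append, ih.2,
          pow_succ']
        exact ⟨ih.1, rfl⟩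
    have hw' : w.take j' ++ (List.replicate n u).flatten ++ w.drop j' ∈ M.accepts := by
      rw [DFA.mem_accepts] at hw ⊢
      rw [← List.take_append_drop j' w] at hw
      rw [DFA.eval, M.evalFrom_of_append] at hw
      rw [DFA.eval, M.evalFrom_of_append, M.evalFrom_of_append]
      have := (hrep n).1
      rw [DFA.eval] at this
      rw [this]
      exact hw
    have heq := hL.injOn hw' hw (by
      rw [ev_append, ev_append, (hrep n).2, hun', mul_one, ← ev_append, List.take_append_drop])
    have := congrArg List.length heq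
    simp only [List.length_append, List.length_take, List.length_drop, List.length_flatten,
      List.map_replicate, List.sum_replicate, smul_eq_mul] at this
    have : 0 < n * u.length := Nat.mul_pos hn hul
    omega
  have hb : ∀ w ∈ M.accepts, cnt w ≤ Fintype.card σ * (2 * R + 1) := by
    intro w hw
    have : ((Finset.univ : Finset σ) ×ˢ Finset.Icc (-(R : ℤ)) R).card =
        Fintype.card σ * (2 * R + 1) := by
      rw [Finset.card_product, Finset.card_univ, Int.card_Icc]
      congr 1
      omega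
    rw [← this]
    refine Finset.card_le_card_of_injOn (fun j => (M.eval (w.take j), sh (ev (w.take j)))) ?_ ?_
    · intro j hj
      simp only [Finset.coe_filter, Set.mem_ofPred_eq, abs_le] at hj
      simpa using hj.2
    · intro j hj j' hj' h
      simp only [Finset.coe_filter, Set.mem_ofPred_eq, Finset.mem_range] at hj hj'
      simp only [Prod.mk.injEq] at h
      rcases lt_trichotomy j j' with h1 | h1 | h1
      · exact (hkey w hw j j' h1 hj'.1 h.1 h.2).elim
      · exact h1
      · exact (hkey w hw j' j h1 hj.1 h.1.symm h.2.symm).elim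
  set n : ℕ := C * (Fintype.card σ * (2 * R + 1)) + 1 with hn
  let f : ℤ → ℤ := fun i => if -(n : ℤ) ≤ i ∧ i < n then -1 - i else i
  have hf : Function.Involutive f := by
    intro i
    simp only [f]
    split_ifs <;> omega
  have hf0 : Sh hf.toPerm 0 := by
    refine Set.Finite.subset (Set.finite_Ico (-(n : ℤ)) n) ?_
    intro i hi
    by_contra h
    apply hi
    simp only [Set.mem_Ico] at h
    simp [f, h]
  obtain ⟨w, hw, hwe⟩ := hL.surjOn (Set.mem_univ (⟨hf.toPerm, 0, hf0⟩ : H))
  have h1 := (hcnt w).trans (Nat.mul_le_mul_left C (hb w hw))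
  have h2 : ((Finset.Ico (0 : ℤ) n : Finset ℤ) : Set ℤ) ⊆ D (ev w) := by
    intro i hi
    simp only [Finset.coe_Ico, Set.mem_Ico] at hi
    have h0 : sh (ev w) = 0 := (sh_spec _).unique (by rw [hwe]; exact hf0)
    simp only [D, Set.mem_ofPred_eq, h0]
    rw [hwe]
    have : f i = -1 - i := if_pos ⟨by omega, hi.2⟩
    simp only [Function.Involutive.coe_toPerm, this]
    omega
  have h3 := Set.ncard_le_ncard h2 (D_fin _)
  rw [Set.ncard_coe_finset, Int.card_Ico] at h3
  omega

def t : Perm ℤ := Equiv.addRight 1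
def a : Perm ℤ := t * (swap 0 1 * swap (-1) 0)
def b : Perm ℤ := swap 2 3
def e : Perm ℤ := swap 1 2

lemma t_apply (i : ℤ) : t i = i + 1 := rfl

lemma t_zpow (m i : ℤ) : (t ^ m) i = i + m := by
  simp [t]

lemma a_apply (i : ℤ) : a i = if i = -1 then 2 else if i = 0 then 0 else if i = 1 then 1
    else i + 1 := by
  simp only [a, Perm.mul_apply, t_apply, swap_apply_def]
  split_ifs <;> first | omega | simp_all

lemma Sh_t : Sh t 1 := by simp [Sh, t_apply]

lemma Sh_a : Sh a 1 := by
  have := Sh_t.mul ((Sh.swap 0 1).mul (Sh.swap (-1) 0))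
  simpa [a] using this

lemma a_orbit (j : ℤ) (h0 : j ≠ 0) (h1 : j ≠ 1) : ∃ m : ℤ, (a ^ m) 2 = j := by
  have up : ∀ n : ℕ, (a ^ (n : ℤ)) 2 = 2 + n := by
    intro n
    induction n with
    | zero => simp
    | succ n ih =>
      rw [Nat.cast_succ, add_comm (n : ℤ), zpow_one_add, Perm.mul_apply, ih, a_apply]
      split_ifs <;> omega
  have dn : ∀ n : ℕ, (a ^ (-(n + 1) : ℤ)) 2 = -(n + 1) := by
    intro n
    induction n with
    | zero =>
      apply a.injective
      rw [← Perm.mul_apply, ← zpow_one_add, a_apply]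
      simp
    | succ n ih =>
      apply a.injective
      rw [← Perm.mul_apply, ← zpow_one_add, a_apply,
        show (1 : ℤ) + -(((n + 1 : ℕ) : ℤ) + 1) = -(n + 1) by push_cast; ring, ih]
      split_ifs <;> omega
  by_cases h : 2 ≤ j
  · exact ⟨(j - 2).toNat, by rw [up]; omega⟩
  · exact ⟨-((-j - 1).toNat + 1), by rw [dn]; omega⟩

lemma swap_mem (m n : ℤ) : swap ((a ^ m) 2) ((a ^ n) 2) ∈ Subgroup.closure {a, b} := by
  have ha : a ∈ Subgroup.closure {a, b} := Subgroup.subset_closure (by simp)
  have hb : b ∈ Subgroup.closure {a, b} := Subgroup.subset_closure (by simp)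
  have h1 : ∀ m : ℤ, swap ((a ^ m) 2) ((a ^ (m + 1)) 2) ∈ Subgroup.closure {a, b} := by
    intro m
    have : (a ^ (m + 1)) 2 = (a ^ m) 3 := by
      rw [zpow_add_one, Perm.mul_apply, a_apply]; simp
    rw [this, swap_apply_apply]
    exact mul_mem (mul_mem (zpow_mem ha m) hb) (inv_mem (zpow_mem ha m))
  have h2 : ∀ k : ℤ, swap ((a ^ m) 2) ((a ^ (m + k)) 2) ∈ Subgroup.closure {a, b} := by
    intro k
    induction k using Int.induction_on with
    | zero => simp only [add_zero, swap_self]; exact one_mem _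
    | succ k ih =>
      rw [← add_assoc]
      exact SubmonoidClass.swap_mem_trans _ ih (h1 _)
    | pred k ih =>
      have := h1 (m + (-(k : ℤ) - 1))
      rw [swap_comm, show m + (-(k : ℤ) - 1) + 1 = m + -k by ring] at this
      exact SubmonoidClass.swap_mem_trans _ ih this
  have := h2 (n - m)
  rwa [add_sub_cancel] at this

lemma fix_ab (c : Perm ℤ) (hc : c ∈ Subgroup.closure {a, b}) : c 0 = 0 ∧ c 1 = 1 := by
  induction hc using Subgroup.closure_induction with
  | mem x hx =>
    rcases hx with rfl | rfl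
    · simp [a_apply]
    · simp [b, swap_apply_def]
  | one => simp
  | mul x y _ _ hx hy => simp [hx, hy]
  | inv x _ hx => constructor <;> rw [Perm.inv_eq_iff_eq] <;> simp [hx]

lemma stab_mem (c : Perm ℤ) (hc : c ∈ H) (h0 : c 0 = 0) (h1 : c 1 = 1) :
    c ∈ Subgroup.closure {a, b} := by
  have ha : a ∈ Subgroup.closure {a, b} := Subgroup.subset_closure (by simp)
  obtain ⟨k, hk⟩ := hc
  have hs := hk.mul (Sh_a.zpow (-k))
  rw [add_neg_cancel] at hs
  have hf := fix_ab _ (zpow_mem ha (-k))
  set c' := c * a ^ (-k) with hc'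
  have h0' : c' 0 = 0 := by rw [hc', Perm.mul_apply, hf.1, h0]
  have h1' : c' 1 = 1 := by rw [hc', Perm.mul_apply, hf.2, h1]
  have hm : c' ∈ Subgroup.closure {σ : Perm ℤ | σ.IsSwap ∧ σ ∈ Subgroup.closure {a, b}} := by
    rw [mem_closure_isSwap (fun f hf => hf.1)]
    constructor
    · refine Set.Finite.subset hs ?_
      intro i hi
      simpa using hi
    · intro x
      by_cases hx : c' x = x
      · rw [hx]; exact MulAction.mem_orbit_self _
      · have x0 : x ≠ 0 := by rintro rfl; exact hx h0'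
        have x1 : x ≠ 1 := by rintro rfl; exact hx h1'
        have y0 : c' x ≠ 0 := fun h => x0 (c'.injective (h.trans h0'.symm))
        have y1 : c' x ≠ 1 := fun h => x1 (c'.injective (h.trans h1'.symm))
        obtain ⟨m, hm⟩ := a_orbit x x0 x1
        obtain ⟨n, hn⟩ := a_orbit _ y0 y1
        have := swap_mem m n
        rw [hm, hn] at this
        exact ⟨⟨swap x (c' x), Subgroup.subset_closure ⟨⟨x, c' x, Ne.symm hx, rfl⟩, this⟩⟩,
          swap_apply_left x (c' x)⟩
  have hm' : c' ∈ Subgroup.closure {a, b} :=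
    (Subgroup.closure_le _).mpr (fun σ hσ => hσ.2) hm
  have : c = c' * a ^ k := by rw [hc']; group
  rw [this]
  exact mul_mem hm' (zpow_mem ha k)

def S : Set (Perm ℤ) := {1, t, a, b, e}

def X : Set H := {x | x.1 ∈ S ∨ x.1⁻¹ ∈ S}

lemma S_sub : ∀ s ∈ S, s ∈ H := by
  intro s hs
  rcases hs with rfl | rfl | rfl | rfl | rfl
  · exact one_mem _
  · exact ⟨1, Sh_t⟩
  · exact ⟨1, Sh_a⟩
  · exact ⟨0, Sh.swap _ _⟩
  · exact ⟨0, Sh.swap _ _⟩

lemma X_fin : X.Finite := by
  have hS : S.Finite := by unfold S; exact Set.toFinite _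
  exact (hS.preimage Subtype.val_injective.injOn).union
    (hS.preimage (f := fun x : H => x.1⁻¹)
      (inv_injective.comp Subtype.val_injective).injOn)

def I : Fin 7 → Set (Perm ℤ) :=
  ![{1}, {g | ∀ i, i < g i}, {g | ∀ i, g i < i}, {g | ∀ i, g (i + 1) = g i + 1},
    {g | g 1 = g 0 + 1}, {g | g 1 ≠ g 0 + 1}, {g | ∃ i, g (i + 1) ≠ g i + 1}]

def M : NFA X (Fin 7) where
  step q x := {q' | ∀ g ∈ I q, g * x.1.1 ∈ I q'}
  start := {q | 1 ∈ I q}
  accept := {q | 1 ∉ I q}

lemma sound (w : List X) : ∀ q ∈ M.eval w, (ev w).1 ∈ I q := by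
  induction w using List.reverseRecOn with
  | nil => intro q hq; rw [ev_nil]; exact hq
  | append_singleton w x ih =>
    intro q hq
    rw [NFA.eval_append_singleton, NFA.mem_stepSet] at hq
    obtain ⟨q0, h0, h1⟩ := hq
    rw [ev_append, ev_single]
    exact h1 _ (ih q0 h0)

def R (q : Fin 7) (g : Perm ℤ) : Prop := ∃ w : List X, q ∈ M.eval w ∧ (ev w).1 = g

lemma R.step {q q' : Fin 7} {g s : Perm ℤ} (h : R q g) (hs : s ∈ S ∨ s⁻¹ ∈ S)
    (hI : ∀ g ∈ I q, g * s ∈ I q') : R q' (g * s) := by
  obtain ⟨w, hw, rfl⟩ := h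
  have hH : s ∈ H := hs.elim (S_sub s) (fun h => by simpa using inv_mem (S_sub _ h))
  refine ⟨w ++ [⟨⟨s, hH⟩, hs⟩], ?_, by rw [ev_append, ev_single]; rfl⟩
  rw [NFA.eval_append_singleton, NFA.mem_stepSet]
  exact ⟨q, hw, hI⟩

lemma R.eps {q q' : Fin 7} {g : Perm ℤ} (h : R q g) (hI : I q ⊆ I q') : R q' g := by
  have := h.step (q' := q') (s := 1) (Or.inl (by simp [S])) (fun g hg => by simpa using hI hg)
  simpa using this

lemma R.clos {q : Fin 7} {g s : Perm ℤ} (h : R q g) (S' : Set (Perm ℤ)) (hS : S' ⊆ S)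
    (hI : ∀ g ∈ I q, ∀ s ∈ Subgroup.closure S', g * s ∈ I q) (hs : s ∈ Subgroup.closure S') :
    R q (g * s) := by
  induction hs using Subgroup.closure_induction_right with
  | one => simpa using h
  | mul_right x hx y hy ih =>
    rw [← mul_assoc]
    exact ih.step (Or.inl (hS hy)) (fun g hg => hI g hg y (Subgroup.subset_closure hy))
  | mul_inv_cancel x hx y hy ih =>
    rw [← mul_assoc]
    exact ih.step (Or.inr (by simpa using hS hy))
      (fun g hg => hI g hg y⁻¹ (inv_mem (Subgroup.subset_closure hy)))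

lemma R_one (q : Fin 7) (h : 1 ∈ I q) : R q 1 := ⟨[], h, by rw [ev_nil]; rfl⟩

lemma complete (g : Perm ℤ) (hg : g ∈ H) (h1 : g ≠ 1) : ∃ q, 1 ∉ I q ∧ R q g := by
  have htS : t ∈ S := by simp [S]
  by_cases hc : ∀ i, g (i + 1) = g i + 1
  · have hgt : g = t ^ (g 0) := by
      ext i
      rw [t_zpow]
      induction i using Int.induction_on with
      | zero => simp
      | succ n ih => rw [hc, ih]; ring
      | pred n ih =>
        have := hc (-(n : ℤ) - 1)
        rw [sub_add_cancel, ih] at this
        omega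
    have hp : ∀ n : ℕ, R 1 (t ^ (n + 1)) := by
      intro n
      induction n with
      | zero =>
        rw [pow_succ]
        refine (R_one 0 (by simp [I])).step (Or.inl htS) ?_
        intro g hg
        obtain rfl : g = 1 := hg
        intro i; simp [t_apply]
      | succ n ih =>
        rw [pow_succ]
        refine ih.step (Or.inl htS) ?_
        intro g hg i
        have := hg (i + 1)
        rw [Perm.mul_apply, t_apply]; omega
    have hn : ∀ n : ℕ, R 2 (t⁻¹ ^ (n + 1)) := by
      have ti : ∀ i, t⁻¹ i = i - 1 := by intro i; rw [Perm.inv_eq_iff_eq, t_apply]; ring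
      intro n
      induction n with
      | zero =>
        rw [pow_succ]
        refine (R_one 0 (by simp [I])).step (Or.inr (by simpa using htS)) ?_
        intro g hg
        obtain rfl : g = 1 := hg
        intro i; rw [one_mul, ti]; omega
      | succ n ih =>
        rw [pow_succ]
        refine ih.step (Or.inr (by simpa using htS)) ?_
        intro g hg i
        have := hg (i - 1)
        rw [Perm.mul_apply, ti]; omega
    rcases lt_trichotomy (g 0) 0 with h | h | h
    · refine ⟨2, by simp [I], ?_⟩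
      have := hn (-g 0 - 1).toNat
      rw [inv_pow, ← zpow_natCast, ← zpow_neg,
        show -(((-g 0 - 1).toNat + 1 : ℕ) : ℤ) = g 0 by omega, ← hgt] at this
      exact this
    · rw [h, zpow_zero] at hgt; exact absurd hgt h1
    · refine ⟨1, by simp [I], ?_⟩
      have := hp (g 0 - 1).toNat
      rw [← zpow_natCast, show (((g 0 - 1).toNat + 1 : ℕ) : ℤ) = g 0 by omega, ← hgt] at this
      exact this
  · push Not at hc
    obtain ⟨i, hi⟩ := hc
    have ht : ∀ m : ℤ, t ^ m ∈ Subgroup.closure {t} :=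
      fun m => zpow_mem (Subgroup.subset_closure (by simp)) m
    have ha : a ∈ Subgroup.closure {a, b} := Subgroup.subset_closure (by simp)
    have htc : ∀ s ∈ Subgroup.closure {t}, ∃ m : ℤ, ∀ i, s i = i + m := by
      intro s hs
      obtain ⟨m, rfl⟩ := Subgroup.mem_closure_singleton.mp hs
      exact ⟨m, t_zpow m⟩
    set g' := t ^ (-g i) * g * t ^ i with hg'
    have g0 : g' 0 = 0 := by
      simp only [hg', Perm.mul_apply, t_zpow]
      simp
    have g1 : g' 1 ≠ 1 := by
      simp only [hg', Perm.mul_apply, t_zpow]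
      rw [add_comm 1 i]; omega
    have g1' : g' 1 ≠ 0 := fun h => one_ne_zero (g'.injective (h.trans g0.symm))
    obtain ⟨m, hm⟩ := a_orbit _ g1' g1
    set c := e * a ^ (-m) * g' with hc
    have hcH : c ∈ H := mul_mem (mul_mem (S_sub e (by simp [S])) (zpow_mem (S_sub a (by simp [S])) _))
      (mul_mem (mul_mem (zpow_mem (S_sub t htS) _) hg) (zpow_mem (S_sub t htS) _))
    have c0 : c 0 = 0 := by
      rw [hc, Perm.mul_apply, Perm.mul_apply, g0, (fix_ab _ (zpow_mem ha _)).1]
      simp [e, swap_apply_def]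
    have c1 : c 1 = 1 := by
      rw [hc, Perm.mul_apply, Perm.mul_apply, ← hm, ← Perm.mul_apply (a ^ (-m)), ← zpow_add]
      simp [e]
    have hcm := stab_mem c hcH c0 c1
    have hab : ({a, b} : Set (Perm ℤ)) ⊆ S := by
      intro x hx; rcases hx with rfl | rfl <;> simp [S]
    have r1 : R 3 (1 * t ^ (g i)) := (R_one 3 (by simp [I])).clos {t} (by simpa using htS) (by
      intro g hg s hs i
      obtain ⟨m, hm⟩ := htc s hs
      rw [Perm.mul_apply, Perm.mul_apply, hm, hm, add_right_comm]
      exact hg _) (ht _)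
    have r2 : R 4 (1 * t ^ (g i)) := r1.eps (fun g hg => hg 0)
    have r3 : R 4 (1 * t ^ (g i) * a ^ m) := r2.clos {a, b} hab (by
      intro g hg s hs
      show g (s 1) = g (s 0) + 1
      rw [(fix_ab s hs).1, (fix_ab s hs).2]
      exact hg) (zpow_mem ha m)
    have r4 : R 5 (1 * t ^ (g i) * a ^ m * e) := r3.step (Or.inl (by simp [S])) (by
      intro g hg
      show g (e 1) ≠ g (e 0) + 1
      have h1 : g 1 = g 0 + 1 := hg
      have e0 : e 0 = 0 := by simp [e, swap_apply_def]
      have e1 : e 1 = 2 := by simp [e]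
      rw [e0, e1, ← h1]
      exact fun h => by simpa using g.injective h)
    have r5 : R 5 (1 * t ^ (g i) * a ^ m * e * c) := r4.clos {a, b} hab (by
      intro g hg s hs
      show g (s 1) ≠ g (s 0) + 1
      rw [(fix_ab s hs).1, (fix_ab s hs).2]
      exact hg) hcm
    have r6 : R 6 (1 * t ^ (g i) * a ^ m * e * c) := r5.eps (fun g hg => ⟨0, hg⟩)
    have r7 : R 6 (1 * t ^ (g i) * a ^ m * e * c * t ^ (-i)) :=
      r6.clos {t} (by simpa using htS) (by
        rintro g ⟨j, hj⟩ s hs
        obtain ⟨m, hm⟩ := htc s hs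
        refine ⟨j - m, ?_⟩
        rw [Perm.mul_apply, Perm.mul_apply, hm, hm, add_right_comm, sub_add_cancel]
        exact hj) (ht _)
    refine ⟨6, by simp [I], ?_⟩
    have ee : e * e = 1 := swap_mul_self _ _
    have : 1 * t ^ (g i) * a ^ m * e * c * t ^ (-i) = g := by
      rw [hc, hg']
      calc _ = t ^ (g i) * a ^ m * (e * e) * a ^ (-m) * t ^ (-g i) * g * t ^ i * t ^ (-i) := by
            simp only [mul_assoc, one_mul]
        _ = g := by rw [ee]; group
    rwa [this] at r7

lemma epi : EpiRegular H := by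
  have key : ev '' (M.accepts : Set (List X)) = {1}ᶜ := by
    ext g
    constructor
    · rintro ⟨w, ⟨q, hq, hw⟩, rfl⟩ h
      have := sound w q hw
      rw [Set.mem_singleton_iff.mp h] at this
      exact hq this
    · intro h
      obtain ⟨q, hq, w, hw, hwe⟩ := complete g.1 g.2 (fun h' => h (Subtype.ext h'))
      exact ⟨w, ⟨q, hq, hw⟩, Subtype.ext hwe⟩
  refine ⟨X, ⟨X_fin, ?_⟩, M.accepts, ⟨Set (Fin 7), inferInstance, M.toDFA, M.toDFA_correct⟩, ?_, key⟩
  · rw [eq_top_iff]
    intro g _
    by_cases h : g = 1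
    · rw [h]; exact one_mem _
    · obtain ⟨w, -, rfl⟩ : g ∈ ev '' (M.accepts : Set (List X)) := by rw [key]; exact h
      apply Submonoid.list_prod_mem
      intro x hx
      obtain ⟨y, -, rfl⟩ := List.mem_map.mp hx
      exact Submonoid.subset_closure y.2
  · intro h
    have : (1 : H) ∈ ev '' (M.accepts : Set (List X)) := ⟨[], h, ev_nil⟩
    rw [key] at this
    exact this rfl

theorem result : ∃ (G : Type) (_ : Group G), Group.FG G ∧ EpiRegular G ∧ ¬ HasRCS G := by
  refine ⟨H, inferInstance, ?_, epi, no_rcs⟩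
  obtain ⟨X, ⟨h1, h2⟩, -⟩ := epi
  rw [Group.fg_iff_monoid_fg, Monoid.fg_iff]
  exact ⟨X, h2, h1⟩

end Pool.Agent.Results.MP_cfc732_al.Houghton
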